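import Mathlib
import Pool.Agent.H741.RS.PubM
import Pool.Agent.H741.RS.Stm

/-!
# HOLB: every holomorphic automorphism of the unit ball is given by a linear map which preserves the form `J`
-/

set_option autoImplicit false

open Metric Set
open scoped ComplexConjugate Topology

namespace Pool.Agent.H682.RS.HOLB

open Pool.Agent.H741.RS

theorem Bn_eq (n : ℕ) : Bn n = ball (0 : V n) 1 := by
  ext z
  simp [Bn]

theorem frac_diff {n : ℕ} (A : (ℂ × V n) →ₗ[ℂ] (ℂ × V n)) (h : ∀ z ∈ Bn n, (A (1, z)).1 ≠ 0) :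
    DifferentiableOn ℂ (frac A) (Bn n) := by
  intro z hz
  have hA : Differentiable ℂ (fun z : V n => A ((1 : ℂ), z)) := by
    have h1 : Differentiable ℂ (fun X : ℂ × V n => LinearMap.toContinuousLinearMap A X) :=
      (LinearMap.toContinuousLinearMap A).differentiable
    exact h1.comp ((differentiable_const _).prodMk differentiable_id)
  have h1 : DifferentiableAt ℂ (fun z : V n => (A ((1 : ℂ), z)).1) z := (hA z).fst
  have h2 : DifferentiableAt ℂ (fun z : V n => (A ((1 : ℂ), z)).2) z := (hA z).snd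
  exact ((h1.inv (h z hz)).smul h2).differentiableWithinAt

theorem frac_frac {n : ℕ} {A A' : (ℂ × V n) →ₗ[ℂ] (ℂ × V n)} (hA : A' ∘ₗ A = LinearMap.id) {z : V n}
    (h0 : (A (1, z)).1 ≠ 0) (h1 : A (1, z) = (A (1, z)).1 • ((1 : ℂ), frac A z)) :
    frac A' (frac A z) = z := by
  have key : ∀ (c : ℂ) (w : V n), c ≠ 0 → A (1, z) = c • ((1 : ℂ), w) → frac A' w = z := by
    intro c w hc h1
    have h2 : A' (A (1, z)) = (1, z) := LinearMap.congr_fun hA (1, z)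
    rw [h1, map_smul] at h2
    have h3 : A' (1, w) = c⁻¹ • ((1 : ℂ), z) := by
      rw [← h2, smul_smul, inv_mul_cancel₀ hc, one_smul]
    have h4 : frac A' w = ((A' (1, w)).1)⁻¹ • (A' (1, w)).2 := rfl
    rw [h4, h3]
    simp only [Prod.smul_fst, Prod.smul_snd, smul_eq_mul, mul_one, inv_inv]
    rw [smul_smul, mul_inv_cancel₀ hc, one_smul]
  exact key _ _ h0 h1

theorem exists_move (h2 : S_EXT) {n : ℕ} (a : V n) (ha : ‖a‖ < 1) :
    ∃ A : (ℂ × V n) →ₗ[ℂ] (ℂ × V n), PresJ A ∧ frac A 0 = a := by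
  have hpos : 0 < 1 - ‖a‖ ^ 2 := by nlinarith [norm_nonneg a]
  set r : ℝ := (Real.sqrt (1 - ‖a‖ ^ 2))⁻¹ with hr
  have hr0 : 0 < r := by positivity
  have hr2 : r ^ 2 * (1 - ‖a‖ ^ 2) = 1 := by
    rw [hr, inv_pow, Real.sq_sqrt hpos.le, inv_mul_cancel₀ hpos.ne']
  have hJ : J ((1 : ℂ), (0 : V n)) ((1 : ℂ), (0 : V n)) = 1 := by
    simp [J, hp]
  have hJ' : J ((r : ℂ), (r : ℂ) • a) ((r : ℂ), (r : ℂ) • a) = 1 := by
    simp only [J, hp, inner_smul_left, inner_smul_right, Complex.conj_ofReal]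
    have h4 : inner ℂ a a = ((‖a‖ : ℝ) : ℂ) ^ 2 := inner_self_eq_norm_sq_to_K a
    rw [h4]
    have h3 : ((r ^ 2 * (1 - ‖a‖ ^ 2) : ℝ) : ℂ) = 1 := by rw [hr2]; simp
    rw [← h3]
    push_cast
    ring
  obtain ⟨B, hB, hB1⟩ := h2 n Unit (fun _ => ((1 : ℂ), (0 : V n))) (fun _ => ((r : ℂ), (r : ℂ) • a)) ()
    (fun _ _ => by rw [hJ, hJ']) (by rw [hJ]; simp)
  refine ⟨B, hB, ?_⟩
  have h3 : ((r : ℂ), (r : ℂ) • a) = B ((1 : ℂ), (0 : V n)) := hB1 ()
  rw [frac, ← h3]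
  simp only
  rw [smul_smul, inv_mul_cancel₀, one_smul]
  exact_mod_cast hr0.ne'

theorem cartan {n : ℕ} {g h : V n → V n} (hgm : MapsTo g (ball 0 1) (ball 0 1))
    (hhm : MapsTo h (ball 0 1) (ball 0 1)) (hgd : DifferentiableOn ℂ g (ball 0 1))
    (hhd : DifferentiableOn ℂ h (ball 0 1)) (hg0 : g 0 = 0) (hh0 : h 0 = 0)
    (hhg : ∀ z ∈ ball (0 : V n) 1, h (g z) = z) :
    ∃ D : V n →L[ℂ] V n, (∀ x, ‖D x‖ = ‖x‖) ∧ ∀ z ∈ ball (0 : V n) 1, g z = D z := by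
  have hnb : ball (0 : V n) 1 ∈ 𝓝 (0 : V n) := ball_mem_nhds _ one_pos
  have hga : HasFDerivAt g (fderiv ℂ g 0) 0 := (hgd.differentiableAt hnb).hasFDerivAt
  have hha : HasFDerivAt h (fderiv ℂ h 0) (g 0) := by
    rw [hg0]
    exact (hhd.differentiableAt hnb).hasFDerivAt
  have hc : HasFDerivAt (h ∘ g) ((fderiv ℂ h 0).comp (fderiv ℂ g 0)) 0 := hha.comp 0 hga
  have hid : HasFDerivAt (h ∘ g) (ContinuousLinearMap.id ℂ (V n)) 0 := by
    refine (hasFDerivAt_id (0 : V n)).congr_of_eventuallyEq ?_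
    filter_upwards [hnb] with z hz
    exact hhg z hz
  have hcomp : (fderiv ℂ h 0).comp (fderiv ℂ g 0) = ContinuousLinearMap.id ℂ (V n) := hc.unique hid
  have hDg : ‖fderiv ℂ g 0‖ ≤ 1 := Complex.norm_fderiv_le_one_of_mapsTo_ball hgd
    (by rw [hg0]; exact hgm.mono_right ball_subset_closedBall) one_pos
  have hDh : ‖fderiv ℂ h 0‖ ≤ 1 := Complex.norm_fderiv_le_one_of_mapsTo_ball hhd
    (by rw [hh0]; exact hhm.mono_right ball_subset_closedBall) one_pos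
  set D := fderiv ℂ g 0 with hDdef
  have hiso : ∀ x, ‖D x‖ = ‖x‖ := by
    intro x
    refine le_antisymm ?_ ?_
    · simpa using D.le_of_opNorm_le hDg x
    · have h3 : (fderiv ℂ h 0) (D x) = x := by
        have h4 := congrArg (fun L : V n →L[ℂ] V n => L x) hcomp
        simpa using h4
      calc ‖x‖ = ‖(fderiv ℂ h 0) (D x)‖ := by rw [h3]
        _ ≤ 1 * ‖D x‖ := ContinuousLinearMap.le_of_opNorm_le _ hDh _
        _ = ‖D x‖ := one_mul _
  refine ⟨D, hiso, fun z hz => ?_⟩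
  rcases eq_or_ne z 0 with rfl | hz0
  · rw [hg0, map_zero]
  have hzn : ((‖z‖ : ℝ) : ℂ) ≠ 0 := by simpa using hz0
  set u : V n := (((‖z‖ : ℝ) : ℂ))⁻¹ • z with hu0
  have h7 : ((‖z‖ : ℝ) : ℂ) • u = z := by
    rw [hu0, smul_smul, mul_inv_cancel₀ hzn, one_smul]
  have hu : ‖u‖ = 1 := by
    rw [hu0, norm_smul, norm_inv, Complex.norm_real, norm_norm]
    exact inv_mul_cancel₀ (norm_ne_zero_iff.2 hz0)
  let φ : ℂ → V n := fun t => g (t • u)
  have hm : MapsTo (fun t : ℂ => t • u) (ball 0 1) (ball (0 : V n) 1) := by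
    intro t ht
    simpa [norm_smul, hu] using ht
  have hφd : DifferentiableOn ℂ φ (ball 0 1) := by
    have h3 : Differentiable ℂ fun t : ℂ => t • u := by fun_prop
    exact hgd.comp h3.differentiableOn hm
  have hφ0 : φ 0 = 0 := by
    show g ((0 : ℂ) • u) = 0
    rw [zero_smul, hg0]
  have hφm : MapsTo φ (ball 0 1) (closedBall (φ 0) 1) := by
    intro t ht
    rw [hφ0]
    exact ball_subset_closedBall (hgm (hm ht))
  have hφ' : HasDerivAt φ (D u) 0 := by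
    have h4 : HasDerivAt (fun t : ℂ => t • u) u 0 := by
      simpa using (hasDerivAt_id (0 : ℂ)).smul_const u
    have h5 : HasFDerivAt g D ((fun t : ℂ => t • u) 0) := by
      simpa using hga
    exact h5.comp_hasDerivAt 0 h4
  have hds : dslope φ 0 0 = D u := by rw [dslope_same, hφ'.deriv]
  have haff := Complex.affine_of_mapsTo_ball_of_norm_dslope_eq_div hφd hφm (z₀ := 0)
    (mem_ball_self one_pos) (by rw [hds, hiso, hu]; norm_num)
  have ht : ((‖z‖ : ℝ) : ℂ) ∈ ball (0 : ℂ) 1 := by simpa using hz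
  have h6 := haff ht
  simp only [hφ0, hds, sub_zero, zero_add] at h6
  have h8 : φ ((‖z‖ : ℝ) : ℂ) = g z := by
    show g (((‖z‖ : ℝ) : ℂ) • u) = g z
    rw [h7]
  rw [← h8, h6, ← map_smul, h7]

theorem t_HOLB (h1 : S_PRES) (h2 : S_EXT) : S_HOLB := by
  rintro n γ ⟨hγd, hγm, δ, hδd, hδm, hinv⟩
  have h0 : (0 : V n) ∈ Bn n := by simp [Bn]
  obtain ⟨A, hA, hA0⟩ := exists_move h2 (γ 0) (hγm h0)
  obtain ⟨⟨A', hA', hA'A, hAA'⟩, hAz⟩ := h1 n A hA
  obtain ⟨-, hA'z⟩ := h1 n A' hA'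
  have e1 : ∀ z ∈ Bn n, frac A' (frac A z) = z := fun z hz =>
    frac_frac hA'A (hAz z hz).1 (hAz z hz).2.2.1
  have e2 : ∀ z ∈ Bn n, frac A (frac A' z) = z := fun z hz =>
    frac_frac hAA' (hA'z z hz).1 (hA'z z hz).2.2.1
  let g : V n → V n := fun z => frac A' (γ z)
  let h : V n → V n := fun z => δ (frac A z)
  have hgm : MapsTo g (Bn n) (Bn n) := fun z hz => (hA'z _ (hγm hz)).2.1
  have hhm : MapsTo h (Bn n) (Bn n) := fun z hz => hδm (hAz _ hz).2.1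
  have hgd : DifferentiableOn ℂ g (Bn n) :=
    (frac_diff A' fun z hz => (hA'z z hz).1).comp hγd hγm
  have hhd : DifferentiableOn ℂ h (Bn n) :=
    hδd.comp (frac_diff A fun z hz => (hAz z hz).1) fun z hz => (hAz z hz).2.1
  have hg0 : g 0 = 0 := by
    show frac A' (γ 0) = 0
    rw [← hA0]
    exact e1 0 h0
  have hhg : ∀ z ∈ Bn n, h (g z) = z := by
    intro z hz
    show δ (frac A (frac A' (γ z))) = z
    rw [e2 _ (hγm hz)]
    exact (hinv z hz).1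
  have hh0 : h 0 = 0 := by
    have h3 := hhg 0 h0
    rwa [hg0] at h3
  rw [Bn_eq] at hgm hhm hgd hhd hhg
  obtain ⟨D, hD, hgD⟩ := cartan hgm hhm hgd hhd hg0 hh0 hhg
  let C : (ℂ × V n) →ₗ[ℂ] (ℂ × V n) := A ∘ₗ (LinearMap.id.prodMap D.toLinearMap)
  have hCap : ∀ X, C X = A (X.1, D X.2) := fun X => rfl
  refine ⟨C, ?_, ?_⟩
  · intro X Y
    rw [hCap, hCap, hA]
    have h3 : hp (D X.2) (D Y.2) = hp X.2 Y.2 := by
      let E : V n →ₗᵢ[ℂ] V n := ⟨D.toLinearMap, hD⟩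
      exact E.inner_map_map _ _
    simp only [J, h3]
  · intro z hz
    have h9 : frac C z = frac A (D z) := rfl
    rw [h9, ← hgD z (by rwa [Bn_eq] at hz)]
    exact (e2 _ (hγm hz)).symm

end Pool.Agent.H682.RS.HOLB
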